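import Mathlib
import Pool.Agent.Helper92.PO.Stmts

namespace Pool.Agent.Helper92.PO

theorem alg_sum (f : ℕ → ℕ) (m : ℕ) : ((List.range m).map f).sum = ∑ i ∈ Finset.range m, f i := by
  induction m with
  | zero => simp
  | succ m ih => rw [List.range_succ, List.map_append, List.sum_append, ih, Finset.sum_range_succ]; simp

theorem st_ALG (h1 : ST_TAB) (h2 : ST_SUX) (h3 : ST_FIN) (h4 : ST_SIG) (h5 : ST_ANC) : ST_ALG := by
  intro n
  rw [h5 n, h4 n]
  unfold alg
  rw [alg_sum]
  apply Finset.sum_congr rfl
  intro σ hσ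
  rw [Finset.mem_range] at hσ
  rw [← h3 n σ hσ, ← h2 n σ hσ]
  congr 1
  apply List.map_congr_left
  intro ξ _
  apply h1
  · simp [st0, labs]
  · simp [st0]
  · intro e he
    simp only [st0] at he
    have := (List.mem_replicate.1 he).2
    subst this
    simp [labs]

end Pool.Agent.Helper92.PO
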