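import Mathlib
import Pool.Agent.Helper92.PO.Stmts

namespace Pool.Agent.Helper92.PO

theorem st_CCN : ST_CCN := by
  intro n σ f P hP u hu
  have hw : 0 < wd n := Nat.succ_pos _
  have hL : 0 < LL n := Nat.succ_pos _
  rw [cnt, cls]
  refine Finset.card_nbij' (fun k => ((((k / LL n) * wd n + u : ℕ) : ℤ) - σ - 1,
      ((k % LL n : ℕ) : ℤ) - n - 1))
    (fun a => ((a.1 + σ + 1).toNat / wd n) * LL n + (a.2 + n + 1).toNat) ?_ ?_ ?_ ?_
  · intro k hk
    simp only [Finset.coe_filter, Finset.mem_range, Set.mem_ofPred_eq] at hk ⊢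
    obtain ⟨hk, hf⟩ := hk
    have hq : k / LL n < JJ n := Nat.div_lt_of_lt_mul (by rw [mul_comm]; exact hk)
    have hr : k % LL n < LL n := Nat.mod_lt _ hL
    have hX : k / LL n * wd n + u < JJ n * wd n := by
      calc k / LL n * wd n + u < k / LL n * wd n + wd n := by omega
        _ = (k / LL n + 1) * wd n := by ring
        _ ≤ JJ n * wd n := Nat.mul_le_mul_right _ hq
    have e1 : (((k / LL n * wd n + u : ℕ) : ℤ) - σ - 1) + σ + 1 = ((k / LL n * wd n + u : ℕ) : ℤ) := by
      ring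
    have e2 : (((k % LL n : ℕ) : ℤ) - n - 1) + n + 1 = ((k % LL n : ℕ) : ℤ) := by ring
    constructor
    · rw [hP, ext]
      simp only
      rw [e1, e2, if_pos ⟨by positivity, by exact_mod_cast hX, by positivity, by exact_mod_cast hr⟩,
        Int.toNat_natCast, Int.toNat_natCast]
      have h3 : (k / LL n * wd n + u) / wd n = k / LL n := by
        rw [mul_comm, Nat.mul_add_div hw, Nat.div_eq_of_lt hu, add_zero]
      have h4 : (k / LL n * wd n + u) % wd n = u := by
        rw [mul_comm, Nat.mul_add_mod, Nat.mod_eq_of_lt hu]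
      rw [h3, h4, mul_comm (k / LL n), Nat.div_add_mod]
      exact hf
    · rw [e1]
      norm_cast
      rw [mul_comm, Nat.mul_add_mod, Nat.mod_eq_of_lt hu]
  · intro a ha
    simp only [Finset.coe_filter, Finset.mem_range, Set.mem_ofPred_eq] at ha ⊢
    obtain ⟨ha, hm⟩ := ha
    rw [hP, ext] at ha
    by_cases hb : 0 ≤ a.1 + σ + 1 ∧ a.1 + σ + 1 < (JJ n * wd n : ℕ) ∧ 0 ≤ a.2 + n + 1 ∧
        a.2 + n + 1 < (LL n : ℕ)
    · rw [if_pos hb] at ha
      obtain ⟨h1, h2, h3, h4⟩ := hb
      have hmod : (a.1 + σ + 1).toNat % wd n = u := by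
        have : (((a.1 + σ + 1).toNat % wd n : ℕ) : ℤ) = u := by
          push_cast
          rw [Int.toNat_of_nonneg h1, hm]
        exact_mod_cast this
      have hY : (a.2 + n + 1).toNat < LL n := by omega
      have hX : (a.1 + σ + 1).toNat / wd n < JJ n :=
        Nat.div_lt_of_lt_mul (by rw [mul_comm]; omega)
      refine ⟨?_, by rwa [hmod] at ha⟩
      calc (a.1 + σ + 1).toNat / wd n * LL n + (a.2 + n + 1).toNat
          < (a.1 + σ + 1).toNat / wd n * LL n + LL n := by omega
        _ = ((a.1 + σ + 1).toNat / wd n + 1) * LL n := by ring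
        _ ≤ JJ n * LL n := Nat.mul_le_mul_right _ hX
    · rw [if_neg hb] at ha
      exact absurd rfl ha
  · intro k hk
    simp only [Finset.coe_filter, Finset.mem_range, Set.mem_ofPred_eq] at hk
    simp only
    have e1 : (((k / LL n * wd n + u : ℕ) : ℤ) - σ - 1) + σ + 1 = ((k / LL n * wd n + u : ℕ) : ℤ) := by
      ring
    have e2 : (((k % LL n : ℕ) : ℤ) - n - 1) + n + 1 = ((k % LL n : ℕ) : ℤ) := by ring
    have h3 : (k / LL n * wd n + u) / wd n = k / LL n := by
      rw [mul_comm, Nat.mul_add_div hw, Nat.div_eq_of_lt hu, add_zero]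
    rw [e1, e2, Int.toNat_natCast, Int.toNat_natCast, h3, mul_comm (k / LL n), Nat.div_add_mod]
  · intro a ha
    simp only [Finset.coe_filter, Set.mem_ofPred_eq] at ha
    obtain ⟨ha, hm⟩ := ha
    rw [hP, ext] at ha
    by_cases hb : 0 ≤ a.1 + σ + 1 ∧ a.1 + σ + 1 < (JJ n * wd n : ℕ) ∧ 0 ≤ a.2 + n + 1 ∧
        a.2 + n + 1 < (LL n : ℕ)
    · obtain ⟨h1, h2, h3, h4⟩ := hb
      have hmod : (a.1 + σ + 1).toNat % wd n = u := by
        have : (((a.1 + σ + 1).toNat % wd n : ℕ) : ℤ) = u := by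
          push_cast
          rw [Int.toNat_of_nonneg h1, hm]
        exact_mod_cast this
      have hY : (a.2 + n + 1).toNat < LL n := by omega
      have h5 : ((a.1 + σ + 1).toNat / wd n * LL n + (a.2 + n + 1).toNat) / LL n =
          (a.1 + σ + 1).toNat / wd n := by
        rw [mul_comm, Nat.mul_add_div hL, Nat.div_eq_of_lt hY, add_zero]
      have h6 : ((a.1 + σ + 1).toNat / wd n * LL n + (a.2 + n + 1).toNat) % LL n =
          (a.2 + n + 1).toNat := by
        rw [mul_comm, Nat.mul_add_mod, Nat.mod_eq_of_lt hY]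
      simp only
      rw [h5, h6]
      have h7 : (a.1 + σ + 1).toNat / wd n * wd n + u = (a.1 + σ + 1).toNat := by
        conv_rhs => rw [← Nat.div_add_mod (a.1 + σ + 1).toNat (wd n), hmod]
        ring
      rw [h7, Int.toNat_of_nonneg h1, Int.toNat_of_nonneg h3]
      ext <;> simp <;> ring
    · rw [if_neg hb] at ha
      exact absurd rfl ha

end Pool.Agent.Helper92.PO
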