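import Mathlib
import Pool.Agent.Helper92.PO.Stmts

namespace Pool.Agent.Helper92.PO

theorem st_CSM : ST_CSM := by
  intro n P σ
  have hw : (0 : ℤ) < (wd n : ℤ) := by
    have : 0 < wd n := Nat.succ_pos _
    exact_mod_cast this
  have h := Finset.card_eq_sum_card_fiberwise (s := P) (t := Finset.range (wd n))
    (f := fun a : Cell => ((a.1 + σ + 1) % (wd n : ℤ)).toNat) (fun a _ => by
      have h1 := Int.emod_nonneg (a.1 + σ + 1) hw.ne'
      have h2 := Int.emod_lt_of_pos (a.1 + σ + 1) hw
      simp only [Finset.coe_range, Set.mem_Iio]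
      omega)
  rw [h]
  refine Finset.sum_congr rfl fun u _ => ?_
  rw [cls]
  congr 1
  refine Finset.filter_congr fun a _ => ?_
  have h1 := Int.emod_nonneg (a.1 + σ + 1) hw.ne'
  omega

end Pool.Agent.Helper92.PO
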