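import Mathlib
import Pool.Agent.Helper92.PO.Stmts

namespace Pool.Agent.Helper92.PO

theorem st_PTV (h1 : ST_PTL) (h2 : ST_CCN) (h3 : ST_CSM) (h4 : ST_LIT) (h5 : ST_REX) :
    ST_PTV := by
  intro n σ P c hσ hP hf hv
  have hext := h5.2 n σ P c hσ hP hv
  have hPP : ∀ a, a ∈ P ↔ (ext n σ (res n σ c) a).1 ≠ 0 := by
    intro a
    rw [hext]
    exact hv.1 a
  have hc := h2 n σ (res n σ c) P hPP
  have hL := (h4 n P σ hσ).1 hf
  have hw : wd n = Nat.sqrt n + 1 := rfl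
  refine ⟨h1 n σ P c hσ hP hv, ?_, ?_, ?_⟩
  · rw [Finset.sum_congr rfl (fun u hu => hc u (Finset.mem_range.1 hu)), h3 n P σ]
    exact hP.1
  · rw [hc (wd n - 1) (by omega)]
    exact hL.1
  · intro u hu
    rw [hc u (by omega)]
    exact hL.2 u hu

end Pool.Agent.Helper92.PO
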