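import Mathlib
import Pool.Agent.Helper92.PO.Stmts

namespace Pool.Agent.Helper92.PO

theorem wcn_nodup (n : ℕ) : (labs n).Nodup := by
  have hm : ∀ v ∈ ((List.range n).flatMap fun d => [((2 : ℕ), d + 1), (3, d + 1), (4, d + 1),
      (5, d + 1)]), 2 ≤ v.1 := by
    intro v hv
    rw [List.mem_flatMap] at hv
    obtain ⟨d, -, hd⟩ := hv
    simp only [List.mem_cons, List.not_mem_nil, or_false] at hd
    rcases hd with h | h | h | h <;> rw [h] <;> norm_num
  rw [labs, List.nodup_cons, List.nodup_cons]
  refine ⟨fun h => ?_, fun h => ?_, ?_⟩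
  · rcases List.mem_cons.1 h with h | h
    · exact absurd h (by decide)
    · exact absurd (hm _ h) (by norm_num)
  · exact absurd (hm _ h) (by norm_num)
  · rw [List.nodup_flatMap]
    refine ⟨fun d _ => by simp, ?_⟩
    refine List.Pairwise.imp ?_ (List.nodup_range (n := n))
    intro a b hab
    rw [Function.onFun, List.disjoint_left]
    intro x hx hy
    simp only [List.mem_cons, List.not_mem_nil, or_false] at hx hy
    have h1 : x.2 = a + 1 := by rcases hx with h | h | h | h <;> rw [h]
    have h2 : x.2 = b + 1 := by rcases hy with h | h | h | h <;> rw [h]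
    omega

theorem wcn_aux (n σ : ℕ) (ξ : Row) (zs : List Cel) : ∀ st : Sta, ∃ S : Finset (List Lab),
    (∀ vs, vs ∈ S ↔ (∀ v ∈ vs, v ∈ labs n) ∧ okRun n σ ξ zs st vs = true) ∧
    S.card = W n σ ξ zs st := by
  induction zs with
  | nil =>
    intro st
    by_cases h : accept n σ st = true
    · refine ⟨{[]}, fun vs => ?_, by simp [W, h]⟩
      rcases vs with _ | ⟨v, vs⟩
      · simp [okRun, h]
      · simp [okRun]
    · refine ⟨∅, fun vs => ?_, by simp [W, h]⟩
      rcases vs with _ | ⟨v, vs⟩
      · simp [okRun, h]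
      · simp [okRun]
  | cons z zs ih =>
    intro st
    choose S hS1 hS2 using fun v => ih (nxt st v)
    let e : Lab → (List Lab ↪ List Lab) := fun v => ⟨fun vs => v :: vs, fun a b h => by
      simpa using h⟩
    refine ⟨((labs n).toFinset.filter fun v => allowed n σ ξ z st v = true).biUnion
      fun v => (S v).map (e v), fun vs => ?_, ?_⟩
    · simp only [Finset.mem_biUnion, Finset.mem_filter, List.mem_toFinset, Finset.mem_map]
      constructor
      · rintro ⟨v, ⟨hv, ha⟩, t, ht, rfl⟩
        rw [hS1] at ht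
        change (∀ w ∈ v :: t, w ∈ labs n) ∧ okRun n σ ξ (z :: zs) st (v :: t) = true
        refine ⟨fun w hw => ?_, by simp [okRun, ha, ht.2]⟩
        rcases List.mem_cons.1 hw with rfl | h
        · exact hv
        · exact ht.1 w h
      · rintro ⟨h1, h2⟩
        rcases vs with _ | ⟨v, t⟩
        · simp [okRun] at h2
        · rw [okRun, Bool.and_eq_true] at h2
          exact ⟨v, ⟨h1 v (by simp), h2.1⟩, t, (hS1 v t).2 ⟨fun w hw => h1 w (by simp [hw]), h2.2⟩, rfl⟩
    · rw [Finset.card_biUnion]
      · rw [W, ← List.sum_toFinset _ (wcn_nodup n), Finset.sum_filter]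
        refine Finset.sum_congr rfl fun v _ => ?_
        rw [Finset.card_map, hS2]
      · intro a _ b _ hab
        rw [Function.onFun, Finset.disjoint_left]
        intro x hx hy
        rw [Finset.mem_map] at hx hy
        obtain ⟨t, -, ht⟩ := hx
        obtain ⟨t', -, ht'⟩ := hy
        have h3 : a :: t = b :: t' := ht.trans ht'.symm
        exact hab (List.cons.inj h3).1

theorem st_WCN : ST_WCN := by
  intro n σ ξ zs st
  obtain ⟨S, h1, h2⟩ := wcn_aux n σ ξ zs st
  rw [← h2, ← Set.ncard_coe_finset]
  congr 1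
  ext vs
  exact h1 vs

end Pool.Agent.Helper92.PO
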