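import Mathlib
import Pool.Agent.Helper92.PO.Stmts
import Pool.Agent.Helper86.PO.WCN

namespace Pool.Agent.Helper92.PO

theorem xin_step (n : ℕ) (X : List Row) (k : ℕ) (hX : X.Nodup)
    (hk : ∀ ξ ∈ X, ∀ p ∈ ξ, p.1 < k) :
    (rowStep n X k).Nodup ∧ ∀ ξ ∈ rowStep n X k, ∀ p ∈ ξ, p.1 < k + 1 := by
  have hl : (labs n).tail.Nodup := (wcn_nodup n).tail
  constructor
  · unfold rowStep
    rw [List.nodup_append]
    refine ⟨hX, ?_, ?_⟩
    · rw [List.nodup_flatMap]
      refine ⟨?_, ?_⟩
      · intro ξ _
        apply hl.map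
        intro v w h
        simpa using h
      · have h1 : (X.filter fun ξ => decide (ξ.length < Nat.sqrt n)).Nodup := hX.filter _
        refine List.Pairwise.imp ?_ h1
        intro a b hab
        intro x hx1 hx2
        rw [List.mem_map] at hx1 hx2
        obtain ⟨v, _, rfl⟩ := hx1
        obtain ⟨w, _, hw⟩ := hx2
        apply hab
        simp at hw
        exact hw.2.symm
    · intro a ha b hb hab
      subst hab
      rw [List.mem_flatMap] at hb
      obtain ⟨ξ, _, hξ⟩ := hb
      rw [List.mem_map] at hξ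
      obtain ⟨v, _, rfl⟩ := hξ
      have := hk _ ha (k, v) (by simp)
      simp at this
  · intro ξ hξ p hp
    unfold rowStep at hξ
    rw [List.mem_append] at hξ
    rcases hξ with h | h
    · have := hk ξ h p hp
      omega
    · rw [List.mem_flatMap] at h
      obtain ⟨ζ, hζ, h⟩ := h
      rw [List.mem_map] at h
      obtain ⟨v, _, rfl⟩ := h
      rw [List.mem_filter] at hζ
      rw [List.mem_cons] at hp
      rcases hp with rfl | hp
      · simp
      · have := hk ζ hζ.1 p hp
        omega

theorem xin_all (n : ℕ) (m : ℕ) : ((List.range m).foldl (rowStep n) [[]]).Nodup ∧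
    ∀ ξ ∈ (List.range m).foldl (rowStep n) [[]], ∀ p ∈ ξ, p.1 < m := by
  induction m with
  | zero => simp
  | succ m ih =>
    rw [List.range_succ, List.foldl_append]
    exact xin_step n _ m ih.1 ih.2

theorem st_XIN : ST_XIN := by
  intro n
  exact (xin_all n (KK n)).1

end Pool.Agent.Helper92.PO
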